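import Pool.Agent.BBY.Defs
import Pool.Agent.MPC.Fiber

/-!
# Direct images of zero-cycles, points

`rat_map`: compose the morphism `φ` from the curve with `f` (the components are constant, with the
coordinates `fun j => algebraMap ℂ F (p.rep j)`; or a component of `φ` followed by an automorphism).
`P_nonempty`: kind 1: `r < r d` linear equations for the `x j ^ d` have a solution which is not
zero; kind 2: `w i ^ M i = ∑ j, A i j` (all `x j = 1` in the kernel of `A - diag μ`); kind 3: the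
point `(1, -1, 0, 0, 0)`.
-/

set_option autoImplicit false

noncomputable section

namespace Pool.Agent.BBY

open Pool.Agent.ZCyc Pool.Agent.BBM
open scoped LinearAlgebra.Projectivization

variable {S₁ S₂ S₃ S₄ : Type} {Y : Fly S₁ S₂ S₃ S₄}

/-- the identity -/
def Fly.id (Y : Fly S₁ S₂ S₃ S₄) : (s : S₁ ⊕ S₂ ⊕ S₃ ⊕ S₄) → Y.G s
  | .inl s => (1 : Fin (Y.r s * Y.d s) → rootsOfUnity (Y.d s) ℂ)
  | .inr (.inl s) => (1 : ∀ i, rootsOfUnity (Y.M s i) ℂ)
  | .inr (.inr (.inl _)) => (⟨fun _ => 1, 1, fun _ => one_pow 5, Finset.prod_const_one⟩ : DWK.Mon ℂ)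
  | .inr (.inr (.inr s)) => (1 : ∀ i, rootsOfUnity ((Y.F s).M i) ℂ)

private theorem Funct_mul_one {d N : ℕ} (ζ : Fin N → rootsOfUnity d ℂ) (h : ∀ j, ζ j = 1)
    (p : ℙ ℂ (Fin N → ℂ)) : BBP.mul ζ p = p := by
  have h1 : (fun j => ((ζ j : ℂˣ) : ℂ) * p.rep j) = p.rep := by
    funext j
    rw [h j]
    simp
  unfold BBP.mul
  conv_rhs => rw [← p.mk_rep]
  rw [Projectivization.mk_eq_mk_iff']
  exact ⟨1, by rw [one_smul, h1]⟩

private theorem Funct_actP_one (p : ℙ ℂ (Fin 5 → ℂ)) :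
    DWG.actP (⟨fun _ => 1, 1, fun _ => one_pow 5, Finset.prod_const_one⟩ : DWK.Mon ℂ) p = p := by
  unfold DWG.actP
  conv_rhs => rw [← p.mk_rep]
  rw [Projectivization.mk_eq_mk_iff']
  refine ⟨1, ?_⟩
  rw [one_smul]
  funext i
  simp [DWK.Mon.ap]

theorem act_id (s : S₁ ⊕ S₂ ⊕ S₃ ⊕ S₄) (p : Y.P s) : Y.act s (Y.id s) p = p := by
  apply Subtype.ext
  rcases s with s | s | s | s
  · funext e
    exact Funct_mul_one (1 : Fin (Y.r s * Y.d s) → rootsOfUnity (Y.d s) ℂ) (fun _ => rfl) (p.1 e)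
  · funext e
    refine Funct_mul_one (![(1 : rootsOfUnity (Y.M s e) ℂ), 1]) (fun j => ?_) (p.1 e)
    fin_cases j <;> rfl
  · funext e
    exact Funct_actP_one (p.1 e)
  · have h : ∀ e : Option (Fin (Y.l₄ s)), Y.ap (.inr (.inr (.inr s)))
        (1 : ∀ i, rootsOfUnity ((Y.F s).M i) ℂ) p.1 e = p.1 e := by
      intro e
      cases e with
      | none => rfl
      | some i =>
        refine Funct_mul_one (![(1 : rootsOfUnity ((Y.F s).M i) ℂ), 1]) (fun j => ?_) (p.1 (some i))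
        fin_cases j <;> rfl
    exact funext h

private theorem Funct_isValue_mul {F : Type} [Field F] [Algebra ℂ F] (v : Place ℂ F) {d N : ℕ}
    (ζ : Fin N → rootsOfUnity d ℂ) (x : Fin N → F) (p : ℙ ℂ (Fin N → ℂ))
    (h : DCI57.IsValue v x p) :
    DCI57.IsValue v (fun j => algebraMap ℂ F ((ζ j : ℂˣ) : ℂ) * x j) (BBP.mul ζ p) := by
  obtain ⟨t, hs⟩ := h
  obtain ⟨a, ha⟩ := Projectivization.exists_smul_eq_mk_rep ℂ
    (fun j => ((ζ j : ℂˣ) : ℂ) * p.rep j) (BBP.mul_ne ζ p)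
  have ha' : ∀ j, (BBP.mul ζ p).rep j = (a : ℂ) * (((ζ j : ℂˣ) : ℂ) * p.rep j) :=
    fun j => (congrFun ha j).symm
  refine ⟨algebraMap ℂ F a * t, fun j => ?_⟩
  have h3 : algebraMap ℂ F a * t * (algebraMap ℂ F ((ζ j : ℂˣ) : ℂ) * x j) -
      algebraMap ℂ F ((a : ℂ) * (((ζ j : ℂˣ) : ℂ) * p.rep j)) =
      algebraMap ℂ F (a * ((ζ j : ℂˣ) : ℂ)) * (t * x j - algebraMap ℂ F (p.rep j)) := by
    simp only [map_mul]
    ring
  rw [ha', h3, mul_comm]
  unfold Place.Vanishes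
  rw [ValuationSubring.mem_nonunits_iff, map_mul]
  have h4 := hs j
  unfold Place.Vanishes at h4
  rw [ValuationSubring.mem_nonunits_iff] at h4
  exact mul_lt_one_of_lt_of_le h4 ((v.ring.valuation_le_one_iff _).2 (v.const_mem _))

private theorem Funct_isValue_actP {F : Type} [Field F] [Algebra ℂ F] (v : Place ℂ F)
    (g : DWK.Mon ℂ) (x : Fin 5 → F) (p : ℙ ℂ (Fin 5 → ℂ)) (h : DCI57.IsValue v x p) :
    DCI57.IsValue v (fun j => algebraMap ℂ F (g.h j) * x (g.π j)) (DWG.actP g p) := by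
  obtain ⟨t, hs⟩ := h
  have hne : g.ap p.rep ≠ 0 := by
    intro h
    apply p.rep_nonzero
    funext i
    have h1 := congrFun h (g.π.symm i)
    simp only [DWK.Mon.ap, Pi.zero_apply, Equiv.apply_symm_apply, mul_eq_zero] at h1
    rcases h1 with h1 | h1
    · exfalso
      have h2 := g.pow (g.π.symm i)
      rw [Algebra.algebraMap_self, RingHom.id_apply] at h1
      rw [h1] at h2
      norm_num at h2
    · exact h1
  obtain ⟨a, ha⟩ := Projectivization.exists_smul_eq_mk_rep ℂ (g.ap p.rep) hne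
  have ha' : ∀ j, (DWG.actP g p).rep j = (a : ℂ) * (g.h j * p.rep (g.π j)) :=
    fun j => (congrFun ha j).symm
  refine ⟨algebraMap ℂ F a * t, fun j => ?_⟩
  have h3 : algebraMap ℂ F a * t * (algebraMap ℂ F (g.h j) * x (g.π j)) -
      algebraMap ℂ F ((a : ℂ) * (g.h j * p.rep (g.π j))) =
      algebraMap ℂ F (a * g.h j) * (t * x (g.π j) - algebraMap ℂ F (p.rep (g.π j))) := by
    simp only [map_mul]
    ring
  rw [ha', h3, mul_comm]
  unfold Place.Vanishes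
  rw [ValuationSubring.mem_nonunits_iff, map_mul]
  have h4 := hs (g.π j)
  unfold Place.Vanishes at h4
  rw [ValuationSubring.mem_nonunits_iff] at h4
  exact mul_lt_one_of_lt_of_le h4 ((v.ring.valuation_le_one_iff _).2 (v.const_mem _))

/-- values of the image of a morphism under an automorphism -/
theorem isValue_ap {F : Type} [Field F] [Algebra ℂ F] (s : S₁ ⊕ S₂ ⊕ S₃ ⊕ S₄) (g : Y.G s)
    (x : ∀ e : Y.E s, Y.J s e → F) : ∃ x' : ∀ e : Y.E s, Y.J s e → F, ∀ (v : Place ℂ F)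
      (p : Y.Amb s), (∀ e, DCI57.IsValue v (x e) (p e)) →
      ∀ e, DCI57.IsValue v (x' e) (Y.ap s g p e) := by
  rcases s with s | s | s | s
  · exact ⟨fun e j => algebraMap ℂ F
      (((g : Fin (Y.r s * Y.d s) → rootsOfUnity (Y.d s) ℂ) j : ℂˣ) : ℂ) *
      (x e : Fin (Y.r s * Y.d s) → F) j, fun v p h e =>
      Funct_isValue_mul v (g : Fin (Y.r s * Y.d s) → rootsOfUnity (Y.d s) ℂ) (x e) (p e) (h e)⟩
  · exact ⟨fun (e : Fin (Y.l s)) j => algebraMap ℂ F
      (((![(g : ∀ i, rootsOfUnity (Y.M s i) ℂ) e, 1] :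
        Fin 2 → rootsOfUnity (Y.M s e) ℂ) j : ℂˣ) : ℂ) *
      (x e : Fin 2 → F) j, fun v p h e =>
      Funct_isValue_mul v (![(g : ∀ i, rootsOfUnity (Y.M s i) ℂ) e, 1]) (x e) (p e) (h e)⟩
  · exact ⟨fun e j => algebraMap ℂ F ((g : DWK.Mon ℂ).h j) *
      (x e : Fin 5 → F) ((g : DWK.Mon ℂ).π j),
      fun v p h e => Funct_isValue_actP v (g : DWK.Mon ℂ) (x e) (p e) (h e)⟩
  · obtain ⟨x', hn, hs⟩ : ∃ x' : Option (Fin (Y.l₄ s)) → Fin 2 → F, x' none = x none ∧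
        ∀ i, x' (some i) = fun j => algebraMap ℂ F
          (((![(g : ∀ i, rootsOfUnity ((Y.F s).M i) ℂ) i, 1] :
            Fin 2 → rootsOfUnity ((Y.F s).M i) ℂ) j : ℂˣ) : ℂ) *
          (x (some i) : Fin 2 → F) j :=
      ⟨fun e => match e with
        | none => x none
        | some i => fun j => algebraMap ℂ F
          (((![(g : ∀ i, rootsOfUnity ((Y.F s).M i) ℂ) i, 1] :
            Fin 2 → rootsOfUnity ((Y.F s).M i) ℂ) j : ℂˣ) : ℂ) *
          (x (some i) : Fin 2 → F) j, rfl, fun i => rfl⟩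
    refine ⟨x', fun v p h => ?_⟩
    have h1 : ∀ e : Option (Fin (Y.l₄ s)),
        DCI57.IsValue v (x' e) (Y.ap (.inr (.inr (.inr s))) g p e) := by
      intro e
      cases e with
      | none =>
        rw [hn]
        exact h none
      | some i =>
        rw [hs]
        exact Funct_isValue_mul v
          (![(g : ∀ i, rootsOfUnity ((Y.F s).M i) ℂ) i, 1]) (x (some i)) (p (some i)) (h (some i))
    exact h1

/-- the composition of a morphism from a curve with a component -/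
private def Funct_comp {F : Type} [Field F] [Algebra ℂ F] {m : S₁ ⊕ S₂ ⊕ S₃ ⊕ S₄ → ℕ}
    (P : ∀ (i : Idx m) (e : Y.E i.1), Y.J i.1 e → F) {s : S₁ ⊕ S₂ ⊕ S₃ ⊕ S₄}
    (c : Comp Y.P Y.G m s) : ∀ e : Y.E s, Y.J s e → F :=
  match c with
  | .const p => fun e l => algebraMap ℂ F ((p.1 e).rep l)
  | .fac i g => (isValue_ap s g (P ⟨s, i⟩)).choose

private theorem Funct_comp_value {F : Type} [Field F] [Algebra ℂ F] {m : S₁ ⊕ S₂ ⊕ S₃ ⊕ S₄ → ℕ}
    (v : Place ℂ F) (P : ∀ (i : Idx m) (e : Y.E i.1), Y.J i.1 e → F) (p : Pts Y.P m)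
    (h : ∀ i e, DCI57.IsValue v (P i e) ((p i).1 e)) {s : S₁ ⊕ S₂ ⊕ S₃ ⊕ S₄}
    (c : Comp Y.P Y.G m s) (e : Y.E s) :
    DCI57.IsValue v (Funct_comp P c e) ((c.app Y.act p).1 e) := by
  cases c with
  | const q => exact MPC.isValue_const v (q.1 e)
  | fac i g =>
    exact (isValue_ap s g (P ⟨s, i⟩)).choose_spec v (p ⟨s, i⟩).1 (h ⟨s, i⟩) e

theorem rat_map {m m' : S₁ ⊕ S₂ ⊕ S₃ ⊕ S₄ → ℕ} (f : Mor Y.P Y.G m m') :
    (Y.rat m).map (Finsupp.lmapDomain ℚ ℚ (f.app Y.act)) ≤ Y.rat m' := by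
  unfold Fly.rat
  rw [Submodule.map_span_le]
  rintro z ⟨F, _, _, _, _, _, _, x, φ, h1, a, b, v, w, hv, hw, rfl⟩
  apply Submodule.subset_span
  refine ⟨F, inferInstance, inferInstance, inferInstance, inferInstance, inferInstance,
    inferInstance, fun j => Funct_comp x (f j), fun v => f.app Y.act (φ v),
    fun v j e => Funct_comp_value v x (φ v) (h1 v) (f j) e, a, b, v, w, hv, hw, ?_⟩
  rw [map_sum]
  refine Finset.sum_congr rfl fun τ _ => ?_
  rw [map_sub, Finsupp.lmapDomain_apply, Finsupp.lmapDomain_apply, Finsupp.mapDomain_single,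
    Finsupp.mapDomain_single]

theorem rat_deg {m : S₁ ⊕ S₂ ⊕ S₃ ⊕ S₄ → ℕ} {z : Pts Y.P m →₀ ℚ} (hz : z ∈ Y.rat m) :
    (z.sum fun _ c => c) = 0 := by
  have key : Y.rat m ≤
      LinearMap.ker (Finsupp.linearCombination ℚ (fun _ : Pts Y.P m => (1 : ℚ))) := by
    unfold Fly.rat
    rw [Submodule.span_le]
    rintro _ ⟨F, _, _, _, _, _, _, x, φ, _, a, b, v, w, _, _, rfl⟩
    rw [SetLike.mem_coe, LinearMap.mem_ker, map_sum]
    refine Finset.sum_eq_zero fun τ _ => ?_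
    rw [map_sub, Finsupp.linearCombination_single, Finsupp.linearCombination_single, sub_self]
  have h := key hz
  rw [LinearMap.mem_ker, Finsupp.linearCombination_apply] at h
  simpa using h

private theorem Funct_rep {n : ℕ} (x : Fin n → ℂ) (hx : x ≠ 0) :
    ∃ a : ℂ, ∀ j, (Projectivization.mk ℂ x hx).rep j = a * x j := by
  obtain ⟨a, ha⟩ := Projectivization.exists_smul_eq_mk_rep ℂ x hx
  exact ⟨(a : ℂ), fun j => (congrFun ha j).symm⟩

private theorem Funct_one {d r N : ℕ} (hd : d ≠ 0) (c : Fin r → Fin N → ℂ) (h : r < N) :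
    ∃ q : ℙ ℂ (Fin N → ℂ), ∀ i, ∑ j, c i j * q.rep j ^ d = 0 := by
  have : NeZero d := ⟨hd⟩
  have h1 : LinearMap.ker (Matrix.mulVecLin (Matrix.of c)) ≠ ⊥ := by
    apply LinearMap.ker_ne_bot_of_finrank_lt
    simpa using h
  obtain ⟨v, hv, hv0⟩ := (Submodule.ne_bot_iff _).1 h1
  obtain ⟨q, hq, -⟩ := DCI57.exists_point (m := d) hv0 (c := c) (fun i => by
    have h2 := congrFun (LinearMap.mem_ker.1 hv) i
    simpa [Matrix.mulVec, dotProduct] using h2)
  exact ⟨q, hq⟩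

private theorem Funct_two {l : ℕ} (hl : 2 ≤ l) (A : Matrix (Fin l) (Fin l) ℂ) (M : Fin l → ℕ)
    (hM : ∀ i, M i ≠ 0) : ∃ p : Fin l → ℙ ℂ (Fin 2 → ℂ),
      (Matrix.of fun i j => (p i).rep 1 ^ M i * A i j -
        if i = j then (p i).rep 0 ^ M i else 0).det = 0 := by
  have h1 : ∀ i, ∃ y : ℂ, y ^ M i = ∑ j, A i j :=
    fun i => IsAlgClosed.exists_pow_nat_eq _ (Nat.pos_of_ne_zero (hM i))
  choose y hy using h1
  have hne : ∀ i, (![y i, 1] : Fin 2 → ℂ) ≠ 0 := by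
    intro i h
    have := congrFun h 1
    simp at this
  refine ⟨fun i => Projectivization.mk ℂ (![y i, 1]) (hne i), ?_⟩
  choose a ha using fun i => Funct_rep (![y i, 1]) (hne i)
  have : NeZero l := ⟨by omega⟩
  refine Matrix.exists_mulVec_eq_zero_iff.1 ⟨fun _ => 1, ?_, ?_⟩
  · intro h
    have := congrFun h 0
    simp at this
  · funext i
    simp only [Matrix.mulVec, dotProduct, Matrix.of_apply, mul_one, Pi.zero_apply]
    rw [Finset.sum_sub_distrib, ← Finset.mul_sum, Finset.sum_ite_eq, if_pos (Finset.mem_univ i),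
      ha i 1, ha i 0, ← hy i]
    simp only [Matrix.cons_val_zero, Matrix.cons_val_one]
    ring

private theorem Funct_three (t : ℂ) : ∃ p : ℙ ℂ (Fin 5 → ℂ),
    ∑ i, p.rep i ^ 5 = 5 * t * ∏ i, p.rep i := by
  have hne : (![1, -1, 0, 0, 0] : Fin 5 → ℂ) ≠ 0 := by
    intro h
    have := congrFun h 0
    simp at this
  obtain ⟨a, ha⟩ := Funct_rep (![1, -1, 0, 0, 0]) hne
  refine ⟨Projectivization.mk ℂ (![1, -1, 0, 0, 0]) hne, ?_⟩
  simp only [ha]
  simp [Fin.sum_univ_succ, Fin.prod_univ_succ]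
  ring

private theorem Funct_four {l : ℕ} (F : ARS.Fam ℂ l) (hM : ∀ i, F.M i ≠ 0) (hl : 0 < l) :
    ∃ p : Option (Fin l) → ℙ ℂ (Fin 2 → ℂ), (Matrix.of fun i j =>
      ARS.ev (F.e i) (F.A i j) (p none).rep * (p (some j)).rep 1 ^ F.M j -
      ARS.ev (F.e i) (F.B i j) (p none).rep * (p (some j)).rep 0 ^ F.M j).det = 0 := by
  classical
  have hne : (![1, 0] : Fin 2 → ℂ) ≠ 0 := by
    intro h
    have := congrFun h 0
    simp at this
  let q : ℙ ℂ (Fin 2 → ℂ) := Projectivization.mk ℂ (![1, 0]) hne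
  let j₀ : Fin l := ⟨0, hl⟩
  let N : Fin l → Fin l → ℂ := fun i j => ARS.ev (F.e i) (F.A i j) q.rep * q.rep 1 ^ F.M j -
    ARS.ev (F.e i) (F.B i j) q.rep * q.rep 0 ^ F.M j
  let a : ℂ := ((Matrix.of N).updateCol j₀ fun i => ARS.ev (F.e i) (F.A i j₀) q.rep).det
  let b : ℂ := ((Matrix.of N).updateCol j₀ fun i => ARS.ev (F.e i) (F.B i j₀) q.rep).det
  obtain ⟨x, hx, hxab⟩ : ∃ x : Fin 2 → ℂ, x ≠ 0 ∧ x 1 ^ F.M j₀ * a = x 0 ^ F.M j₀ * b := by
    by_cases hb : b = 0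
    · refine ⟨![1, 0], hne, ?_⟩
      rw [hb, mul_zero]
      change (0 : ℂ) ^ F.M j₀ * a = 0
      rw [zero_pow (hM j₀), zero_mul]
    · obtain ⟨z, hz⟩ := IsAlgClosed.exists_pow_nat_eq (a / b) (Nat.pos_of_ne_zero (hM j₀))
      refine ⟨![z, 1], ?_, ?_⟩
      · intro h
        have := congrFun h 1
        simp at this
      · change (1 : ℂ) ^ F.M j₀ * a = z ^ F.M j₀ * b
        rw [hz, one_pow, one_mul, div_mul_cancel₀ _ hb]
  let y : ℙ ℂ (Fin 2 → ℂ) := Projectivization.mk ℂ x hx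
  obtain ⟨c, hc⟩ := Funct_rep x hx
  have hy : ∀ j, y.rep j = c * x j := hc
  refine ⟨fun e => match e with
    | none => q
    | some j => if j = j₀ then y else q, ?_⟩
  have h1 : (Matrix.of fun i j => ARS.ev (F.e i) (F.A i j) q.rep *
      (if j = j₀ then y else q).rep 1 ^ F.M j -
      ARS.ev (F.e i) (F.B i j) q.rep * (if j = j₀ then y else q).rep 0 ^ F.M j) =
      (Matrix.of N).updateCol j₀ (y.rep 1 ^ F.M j₀ • (fun i => ARS.ev (F.e i) (F.A i j₀) q.rep) +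
        (-(y.rep 0 ^ F.M j₀)) • fun i => ARS.ev (F.e i) (F.B i j₀) q.rep) := by
    ext i j
    rw [Matrix.updateCol_apply]
    by_cases hj : j = j₀
    · subst hj
      simp only [Matrix.of_apply, if_true, Pi.add_apply, Pi.smul_apply, smul_eq_mul]
      ring
    · simp only [Matrix.of_apply, if_neg hj, N]
  change (Matrix.of fun i j => ARS.ev (F.e i) (F.A i j) q.rep *
      (if j = j₀ then y else q).rep 1 ^ F.M j -
      ARS.ev (F.e i) (F.B i j) q.rep * (if j = j₀ then y else q).rep 0 ^ F.M j).det = 0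
  rw [h1, Matrix.det_updateCol_add, Matrix.det_updateCol_smul, Matrix.det_updateCol_smul]
  change y.rep 1 ^ F.M j₀ * a + -(y.rep 0 ^ F.M j₀) * b = 0
  rw [hy, hy, mul_pow, mul_pow]
  linear_combination c ^ F.M j₀ * hxab

theorem P_nonempty (hY : Y.Ok) (s : S₁ ⊕ S₂ ⊕ S₃ ⊕ S₄) : Nonempty (Y.P s) := by
  rcases s with s | s | s | s
  · obtain ⟨h1, h2⟩ := hY.dim₁ s
    obtain ⟨q, hq⟩ := Funct_one (d := Y.d s) (by omega) (Y.c s) (by omega)
    exact ⟨⟨fun _ => q, hq⟩⟩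
  · obtain ⟨p, hp⟩ := Funct_two (hY.dim₂ s) (Y.A s) (Y.M s) (fun i => by
      have := hY.exp s i
      omega)
    exact ⟨⟨p, hp⟩⟩
  · obtain ⟨p, hp⟩ := Funct_three (Y.t s)
    exact ⟨⟨fun _ => p, hp⟩⟩
  · have hl : 0 < Y.l₄ s := by
      rcases Nat.eq_zero_or_pos (Y.l₄ s) with h | h
      · exfalso
        have h1 := (hY.adm s).sum
        have h2 : IsEmpty (Fin (Y.l₄ s)) := by
          rw [h]
          infer_instance
        rw [Finset.univ_eq_empty, Finset.sum_empty] at h1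
        omega
      · exact h
    obtain ⟨p, hp⟩ := Funct_four (Y.F s) (fun i => by
      have := hY.exp₄ s i
      omega) hl
    exact ⟨⟨p, hp⟩⟩

end Pool.Agent.BBY
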