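import Pool.Agent.BBY.AutDefs
import Pool.Agent.BBX.Aut

/-!
# Automorphisms of products of varieties of the four kinds

The structure of a finite group on the automorphisms `Aut Y m`, and its action on the points.
-/

set_option autoImplicit false

noncomputable section

namespace Pool.Agent.BBY

open Pool.Agent.ZCyc Pool.Agent.BBM
open scoped LinearAlgebra.Projectivization

variable {S₁ S₂ S₃ S₄ : Type}

variable {Y : Fly S₁ S₂ S₃ S₄} {m : S₁ ⊕ S₂ ⊕ S₃ ⊕ S₄ → ℕ}

/-- the action of the automorphism on `Y ^ m` -/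
def sy (g : Aut Y m) (x : Pts Y.P m) : Pts Y.P m := symAct Y.act g.perm g.diag x

/-! ### Groups -/

/-- the groups of the automorphisms of the factors -/
instance grp (Y : Fly S₁ S₂ S₃ S₄) : ∀ s, Group (Y.G s)
  | .inl s => inferInstanceAs (Group (Fin (Y.r s * Y.d s) → rootsOfUnity (Y.d s) ℂ))
  | .inr (.inl s) => inferInstanceAs (Group (∀ i, rootsOfUnity (Y.M s i) ℂ))
  | .inr (.inr (.inl _)) => BBX.monGroup
  | .inr (.inr (.inr s)) => inferInstanceAs (Group (∀ i, rootsOfUnity ((Y.F s).M i) ℂ))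

theorem act_mul : ∀ (s : S₁ ⊕ S₂ ⊕ S₃ ⊕ S₄) (g h : Y.G s) (p : Y.P s),
    Y.act s (g * h) p = Y.act s g (Y.act s h p)
  | .inl s, g, h, p => Subtype.ext (funext fun e => HYP.mul_mul _ _ _)
  | .inr (.inl s), g, h, p => Subtype.ext (funext fun (i : Fin (Y.l s)) => by
      have h1 : (![(g * h : ∀ i, rootsOfUnity (Y.M s i) ℂ) i, 1] :
          Fin 2 → rootsOfUnity (Y.M s i) ℂ) =
          ![(g : ∀ i, rootsOfUnity (Y.M s i) ℂ) i, 1] *
            ![(h : ∀ i, rootsOfUnity (Y.M s i) ℂ) i, 1] := by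
        funext j
        fin_cases j
        · rfl
        · exact (one_mul _).symm
      show BBP.mul (![(g * h : ∀ i, rootsOfUnity (Y.M s i) ℂ) i, 1] :
        Fin 2 → rootsOfUnity (Y.M s i) ℂ) _ = _
      rw [h1]
      exact HYP.mul_mul _ _ _)
  | .inr (.inr (.inl s)), g, h, p => Subtype.ext (funext fun e => BBX.actP_mul _ _ _)
  | .inr (.inr (.inr s)), g, h, p => Subtype.ext (funext fun (e : Option (Fin (Y.l₄ s))) => by
      cases e with
      | none => rfl
      | some i =>
        have h1 : (![(g * h : ∀ i, rootsOfUnity ((Y.F s).M i) ℂ) i, 1] :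
            Fin 2 → rootsOfUnity ((Y.F s).M i) ℂ) =
            ![(g : ∀ i, rootsOfUnity ((Y.F s).M i) ℂ) i, 1] *
              ![(h : ∀ i, rootsOfUnity ((Y.F s).M i) ℂ) i, 1] := by
          funext j
          fin_cases j
          · rfl
          · exact (one_mul _).symm
        show BBP.mul (![(g * h : ∀ i, rootsOfUnity ((Y.F s).M i) ℂ) i, 1] :
          Fin 2 → rootsOfUnity ((Y.F s).M i) ℂ) _ = _
        rw [h1]
        exact HYP.mul_mul _ _ _)

theorem act_one : ∀ (s : S₁ ⊕ S₂ ⊕ S₃ ⊕ S₄) (p : Y.P s), Y.act s 1 p = p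
  | .inl s, p => Subtype.ext (funext fun e => HYP.mul_one' _)
  | .inr (.inl s), p => Subtype.ext (funext fun (i : Fin (Y.l s)) => by
      have h1 : (![(1 : ∀ i, rootsOfUnity (Y.M s i) ℂ) i, 1] :
          Fin 2 → rootsOfUnity (Y.M s i) ℂ) = 1 := by
        funext j
        fin_cases j
        · rfl
        · rfl
      show BBP.mul (![(1 : ∀ i, rootsOfUnity (Y.M s i) ℂ) i, 1] :
        Fin 2 → rootsOfUnity (Y.M s i) ℂ) _ = _
      rw [h1]
      exact HYP.mul_one' _)
  | .inr (.inr (.inl s)), p => Subtype.ext (funext fun e => BBX.actP_one _)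
  | .inr (.inr (.inr s)), p => Subtype.ext (funext fun (e : Option (Fin (Y.l₄ s))) => by
      cases e with
      | none => rfl
      | some i =>
        have h1 : (![(1 : ∀ i, rootsOfUnity ((Y.F s).M i) ℂ) i, 1] :
            Fin 2 → rootsOfUnity ((Y.F s).M i) ℂ) = 1 := by
          funext j
          fin_cases j
          · rfl
          · rfl
        show BBP.mul (![(1 : ∀ i, rootsOfUnity ((Y.F s).M i) ℂ) i, 1] :
          Fin 2 → rootsOfUnity ((Y.F s).M i) ℂ) _ = _
        rw [h1]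
        exact HYP.mul_one' _)

theorem finite_G (hY : Y.Ok) : ∀ s, Finite (Y.G s)
  | .inl s => by
    have : NeZero (Y.d s) := ⟨by have := (hY.dim₁ s).1; omega⟩
    exact inferInstanceAs (Finite (Fin (Y.r s * Y.d s) → rootsOfUnity (Y.d s) ℂ))
  | .inr (.inl s) => by
    have : ∀ i, NeZero (Y.M s i) := fun i => ⟨by have := hY.exp s i; omega⟩
    exact inferInstanceAs (Finite (∀ i, rootsOfUnity (Y.M s i) ℂ))
  | .inr (.inr (.inl _)) => BBX.monFinite
  | .inr (.inr (.inr s)) => by
    have : ∀ i, NeZero ((Y.F s).M i) := fun i => ⟨by have := hY.exp₄ s i; omega⟩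
    exact inferInstanceAs (Finite (∀ i, rootsOfUnity ((Y.F s).M i) ℂ))

/-! ### The group of automorphisms of the product -/

private theorem aut_ext {g h : Aut Y m} (h1 : ∀ s b, g.perm s b = h.perm s b)
    (h2 : ∀ b, g.diag b = h.diag b) : g = h :=
  Aut.ext (funext fun s => Equiv.ext (h1 s)) (funext h2)

/-- the group of automorphisms of `Y ^ m` -/
instance autGroup : Group (Aut Y m) :=
  @Group.ofLeftAxioms (Aut Y m)
    ⟨fun g h => ⟨fun s => h.perm s * g.perm s, fun i => g.diag i * h.diag ⟨i.1, g.perm i.1 i.2⟩⟩⟩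
    ⟨fun g => ⟨fun s => (g.perm s).symm, fun i => (g.diag ⟨i.1, (g.perm i.1).symm i.2⟩)⁻¹⟩⟩
    ⟨⟨fun _ => 1, fun _ => 1⟩⟩
    (fun _ _ _ => aut_ext (fun _ _ => rfl) fun _ => mul_assoc _ _ _)
    (fun _ => aut_ext (fun _ _ => rfl) fun _ => one_mul _)
    (fun _ => aut_ext (fun _ _ => Equiv.apply_symm_apply _ _) fun _ => inv_mul_cancel _)

theorem sy_one : (sy (1 : Aut Y m) : Pts Y.P m → Pts Y.P m) = id := by
  funext x i
  exact act_one i.1 _

theorem sy_mul (g h : Aut Y m) : (sy (g * h) : Pts Y.P m → Pts Y.P m) = sy g ∘ sy h := by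
  funext x i
  exact act_mul i.1 _ _ _

theorem finite_aut [Finite S₁] [Finite S₂] [Finite S₃] [Finite S₄] (hY : Y.Ok) : Finite (Aut Y m) := by
  have := finite_G hY
  have h : Function.Injective fun g : Aut Y m => (g.perm, g.diag) := by
    intro g h hgh
    have h1 := congrArg Prod.fst hgh
    have h2 := congrArg Prod.snd hgh
    exact Aut.ext h1 h2
  exact Finite.of_injective _ h

end Pool.Agent.BBY
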