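import Pool.Agent.BBY.Cl
import Pool.Agent.BBY.InstA
import Pool.Agent.HYG.CKill
import Pool.Agent.HYG.Cls

/-!
# The varieties of the second kind

Let `s` be an index of the second kind, `l = Y.l s`. A point of `Y s` is a family of points of the
projective line which satisfies `det = 0`; with `HYG.toP : Option ℂ → ℙ ℂ (Fin 2 → ℂ)` (and its
inverse `HYG.ofP`, see `Pool/Agent/HYG/YPts.lean`, `Pool/Agent/HYG/Cls.lean`) it is a family
`P : Fin l → Option ℂ` with `HYG.OnY A M P`. For a function `f` on `Y.P s` let `fH P` be `f` of the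
point given by `P`, and `0` if `P` is not on `Y s`. If `f` is a class function (`Cl1`; `Cl1.div`)
then `fH` is `HYG.IsCF` for the data `dat` with one block; the values of `w : Fin l → K` are
`vl v (w i)` and the homogeneous coordinates `![w i, 1]` have the value `toP (vl v (w i))` (see the
proof of `cls_isCF` in `HYG/Cls.lean`). The part `Y.pr s c f` belongs to an eigenfunction
(`HYG.Eig`) with the exponents `(c i).val`. So `HYG.Eig.indep` (all `c i = 0`), `HYG.Eig.mixed`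
(some, but not all `c i = 0`) apply, and for two points `HYG.SwapAll` with `IsCls` (all `c i ≠ 0`,
`Chars`; the sign is `(-1) ^ (l + 1) = (-1) ^ Y.n s`).
-/

set_option autoImplicit false

noncomputable section

namespace Pool.Agent.BBY

open Pool.Agent.BBX

open Pool.Agent.ZCyc Pool.Agent.BBM Pool.Agent.Dess Pool.Agent.TInc
open Pool.Agent.GBB (zeta psi)
open scoped LinearAlgebra.Projectivization Classical

variable {S₁ S₂ S₃ S₄ : Type} {Y : Fly S₁ S₂ S₃ S₄} [Fintype S₁] [Fintype S₂] [Fintype S₄] [∀ s, NeZero (Y.d s)]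
  [∀ s i, NeZero (Y.M s i)]
  [∀ s i, NeZero ((Y.F s).M i)] {W : Type} [AddCommGroup W] [Module ℂ W]

/-- the variety as a product with one block -/
def dat (Y : Fly S₁ S₂ S₃ S₄) (s : S₂) : HYG.Dat ℂ where
  N := Y.l s
  n := 1
  β := fun _ => 0
  A := Y.A s
  M := Y.M s

/-- the point of `Y s` given by `P` (an arbitrary one if it is not on `Y s`) -/
def fH {s : S₂} (f : Y.P (.inr (.inl s)) → W) (P : Fin (Y.l s) → Option ℂ) : W :=
  if h : (fun i => HYG.toP (P i) : Y.Amb (.inr (.inl s))) ∈ Y.X (.inr (.inl s)) then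
    f ⟨fun i => HYG.toP (P i), h⟩ else 0

private theorem pos_KTwo (Y : Fly S₁ S₂ S₃ S₄) [∀ s i, NeZero (Y.M s i)]
  [∀ s i, NeZero ((Y.F s).M i)] (s : S₂)
    (i : Fin (Y.l s)) : 0 < Y.M s i := Nat.pos_of_ne_zero (NeZero.ne _)

/-- a point is given by elements of `Option ℂ` -/
theorem exists_opt {s : S₂} (p : Y.P (.inr (.inl s))) :
    ∃ P : Fin (Y.l s) → Option ℂ, p.1 = fun i => HYG.toP (P i) := by
  refine ⟨fun i => HYG.ofP (p.1 i), ?_⟩
  funext i
  exact (HYG.toP_ofP _).symm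

theorem mem_iff {s : S₂} (P : Fin (Y.l s) → Option ℂ) :
    (fun i => HYG.toP (P i) : Y.Amb (.inr (.inl s))) ∈ Y.X (.inr (.inl s)) ↔
      HYG.OnY (Y.A s) (Y.M s) P := by
  choose t ht hr using HYG.toP_row (Y.A s) (M := Y.M s) (pos_KTwo Y s) P
  have key : (Matrix.of fun i j => (HYG.toP (P i)).rep 1 ^ Y.M s i * Y.A s i j -
      if i = j then (HYG.toP (P i)).rep 0 ^ Y.M s i else 0).det =
      (∏ i, t i) * (HYG.mat (Y.A s) (Y.M s) P).det := by
    rw [← Matrix.det_mul_column]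
    congr 1
    ext i j
    exact hr i j
  change (Matrix.of fun i j => (HYG.toP (P i)).rep 1 ^ Y.M s i * Y.A s i j -
      if i = j then (HYG.toP (P i)).rep 0 ^ Y.M s i else 0).det = 0 ↔ _
  rw [key, mul_eq_zero, or_iff_right (Finset.prod_ne_zero_iff.2 fun i _ => ht i)]
  exact Iff.rfl

private theorem det_blk_KTwo {R : Type} [CommRing R] {n : ℕ} (N : Matrix (Fin n) (Fin n) R)
    (b : Fin 1) : (Matrix.toSquareBlock N (fun _ : Fin n => (0 : Fin 1)) b).det = N.det := by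
  have hb : ∀ i : Fin n, (fun _ : Fin n => (0 : Fin 1)) i = b := fun i => Subsingleton.elim _ _
  exact Matrix.det_submatrix_equiv_self (Equiv.subtypeUnivEquiv hb) N

private theorem onK_iff_KTwo {s : S₂} {K : Type} [Field K] [Algebra ℂ K]
    (w : Fin (Y.l s) → K) :
    HYG.OnK (dat Y s) w ↔ (HYG.matK (Y.A s) fun i => w i ^ Y.M s i).det = 0 := by
  constructor
  · intro h
    rw [← det_blk_KTwo _ 0]
    exact h (0 : Fin 1)
  · intro h (b : Fin 1)
    rw [← det_blk_KTwo _ b] at h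
    exact h

private theorem onB_iff_KTwo {s : S₂} (P : Fin (Y.l s) → Option ℂ) :
    HYG.OnB (dat Y s) P ↔ HYG.OnY (Y.A s) (Y.M s) P := by
  unfold HYG.OnY
  constructor
  · intro h
    rw [← det_blk_KTwo _ 0]
    exact h (0 : Fin 1)
  · intro h (b : Fin 1)
    rw [← det_blk_KTwo _ b] at h
    exact h

private theorem fH_eq_KTwo {s : S₂} (f : Y.P (.inr (.inl s)) → W) {p : Y.P (.inr (.inl s))}
    {P : Fin (Y.l s) → Option ℂ} (h : p.1 = fun i => HYG.toP (P i)) : fH f P = f p := by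
  have hm : (fun i => HYG.toP (P i) : Y.Amb (.inr (.inl s))) ∈ Y.X (.inr (.inl s)) := h ▸ p.2
  unfold fH
  rw [dif_pos hm]
  congr 1
  exact Subtype.ext h.symm

private theorem mul_toP_KTwo {d : ℕ} (h : rootsOfUnity d ℂ) (P : Option ℂ) :
    BBP.mul ![h, 1] (HYG.toP P) = HYG.toP (P.map fun w => ((h : ℂˣ) : ℂ) * w) := by
  rw [← HYG.mulP_toP (Units.ne_zero _) P]
  unfold BBP.mul HYG.mulP
  congr 1
  funext j
  fin_cases j
  · rfl
  · simp

private theorem ap_toP_KTwo {s : S₂} (h : ∀ i, rootsOfUnity (Y.M s i) ℂ)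
    (P : Fin (Y.l s) → Option ℂ) :
    Y.ap (.inr (.inl s)) h (fun i => HYG.toP (P i)) =
      fun i => HYG.toP (HYG.rotA (fun i => ((h i : ℂˣ) : ℂ)) P i) := by
  funext i
  exact mul_toP_KTwo (h i) (P i)

private theorem root_pow_KTwo {d : ℕ} (h : rootsOfUnity d ℂ) : ((h : ℂˣ) : ℂ) ^ d = 1 := by
  have h1 := congrArg Units.val ((mem_rootsOfUnity d (h : ℂˣ)).1 h.2)
  simpa using h1

private theorem onY_rotA_KTwo {n : ℕ} {A : Matrix (Fin n) (Fin n) ℂ} {M : Fin n → ℕ}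
    {u : Fin n → ℂ} (hu : ∀ i, u i ^ M i = 1) (P : Fin n → Option ℂ) :
    HYG.OnY A M (HYG.rotA u P) ↔ HYG.OnY A M P := by
  have h : HYG.mat A M (HYG.rotA u P) = HYG.mat A M P := by
    ext i j
    cases hP : P i with
    | none => simp only [HYG.mat, HYG.rotA, hP, Option.map_none]
    | some w => simp only [HYG.mat, HYG.rotA, hP, Option.map_some, mul_pow, hu, one_mul]
  unfold HYG.OnY
  rw [h]

private theorem fH_act_KTwo {s : S₂} (f : Y.P (.inr (.inl s)) → W)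
    (h : ∀ i, rootsOfUnity (Y.M s i) ℂ) (P : Fin (Y.l s) → Option ℂ) :
    fH f (HYG.rotA (fun i => ((h i : ℂˣ) : ℂ)) P) =
      fH (fun p => f (Y.act (.inr (.inl s)) h p)) P := by
  unfold fH
  have hi := onY_rotA_KTwo (A := Y.A s) (M := Y.M s) (u := fun i => ((h i : ℂˣ) : ℂ))
    (fun i => root_pow_KTwo (h i)) P
  rw [← mem_iff, ← mem_iff] at hi
  by_cases hP : (fun i => HYG.toP (P i) : Y.Amb (.inr (.inl s))) ∈ Y.X (.inr (.inl s))
  · rw [dif_pos hP, dif_pos (hi.2 hP)]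
    congr 1
    exact Subtype.ext (ap_toP_KTwo h P).symm
  · rw [dif_neg hP, dif_neg fun h' => hP (hi.1 h')]

omit [Fintype S₁] [Fintype S₂] [Fintype S₄] [∀ s, NeZero (Y.d s)] [∀ s i, NeZero (Y.M s i)]
  [∀ s i, NeZero ((Y.F s).M i)] in
private theorem fH_sum_KTwo {s : S₂} {ι : Type} (T : Finset ι) (a : ι → ℂ)
    (f : ι → Y.P (.inr (.inl s)) → W) (P : Fin (Y.l s) → Option ℂ) :
    fH (fun p => ∑ κ ∈ T, a κ • f κ p) P = ∑ κ ∈ T, a κ • fH (f κ) P := by
  unfold fH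
  split_ifs with h
  · rfl
  · simp

omit [Fintype S₁] [Fintype S₂] [Fintype S₄] [∀ s, NeZero (Y.d s)] [∀ s i, NeZero (Y.M s i)]
  [∀ s i, NeZero ((Y.F s).M i)] in
private theorem fH_smul_KTwo {s : S₂} (a : ℂ)
    (f : Y.P (.inr (.inl s)) → W) (P : Fin (Y.l s) → Option ℂ) :
    fH (fun p => a • f p) P = a • fH f P := by
  unfold fH
  split_ifs with h
  · rfl
  · simp

theorem Fly.Cl1.isCF {s : S₂} {f : Y.P (.inr (.inl s)) → W} (hf : Y.Cl1 f) :
    HYG.IsCF (dat Y s) (fH f) := by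
  intro K _ _ hK w g hg hw
  have hdet := (onK_iff_KTwo w).1 hw
  have hm : ∀ v : Place ℂ K, (fun i => HYG.toP (HYG.vl v (w i)) : Y.Amb (.inr (.inl s))) ∈
      Y.X (.inr (.inl s)) := fun v => (mem_iff _).2 (HYG.onY_vl hK (pos_KTwo Y s) hdet v)
  have h1 := hf.div hK (fun e => ![w e, 1]) (fun v => ⟨_, hm v⟩)
    (fun v e => HYG.isValue_toP hK v (w e)) hg
  rw [← h1]
  refine Finset.sum_congr rfl fun v _ => ?_
  beta_reduce
  rw [Int.cast_smul_eq_zsmul]
  congr 1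
  exact fH_eq_KTwo f (p := ⟨_, hm v⟩) rfl

/-- the eigenfunctions -/
theorem eig_pr {s : S₂} {f : Y.P (.inr (.inl s)) → W} (hf : Y.Cl1 f) (c : Y.K (.inr (.inl s))) :
    HYG.Eig (dat Y s) (fun i => ((c : ∀ i : Fin (Y.l s), ZMod (Y.M s i)) i).val)
      (fH (Y.pr (.inr (.inl s)) c f)) := by
  constructor
  · have h1 : (fH (Y.pr (.inr (.inl s)) c f)) = fun P => ∑ κ : Y.K (.inr (.inl s)),
        Y.wt (.inr (.inl s)) c κ • fH f (HYG.rotA (fun i => (((BBP.rt
          ((κ : ∀ i : Fin (Y.l s), ZMod (Y.M s i)) i) : rootsOfUnity (Y.M s i) ℂ) :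
            ℂˣ) : ℂ)) P) := by
      funext P
      unfold Fly.pr
      rw [fH_sum_KTwo]
      refine Finset.sum_congr rfl fun κ _ => ?_
      rw [fH_act_KTwo]
      rfl
    rw [h1]
    refine HYG.IsCF.sum _ fun κ _ => ?_
    exact HYG.IsCF.map (DistribSMul.toAddMonoidHom W (Y.wt (.inr (.inl s)) c κ))
      (HYG.IsCF.rotate (X := dat Y s) (pos_KTwo Y s) hf.isCF fun i => root_pow_KTwo _)
  · intro u P hu
    have hu0 : ∀ i, u i ≠ 0 := by
      intro i h
      have h1 : u i ^ Y.M s i = 1 := hu i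
      rw [h, zero_pow (pos_KTwo Y s i).ne'] at h1
      exact zero_ne_one h1
    let h : ∀ i : Fin (Y.l s), rootsOfUnity (Y.M s i) ℂ := fun i => ⟨Units.mk0 (u i) (hu0 i), by
      rw [mem_rootsOfUnity]
      ext
      exact hu i⟩
    have h2 := fH_act_KTwo (Y.pr (.inr (.inl s)) c f) h P
    have h3 : (fun p => Y.pr (.inr (.inl s)) c f (Y.act (.inr (.inl s)) h p)) =
        fun p => Y.chi (.inr (.inl s)) c h • Y.pr (.inr (.inl s)) c f p :=
      funext fun p => pr_act₂ Y s c f h p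
    rw [h3, fH_smul_KTwo] at h2
    exact h2

theorem pr_const₂ (hY : Y.Ok) {s : S₂} {f : Y.P (.inr (.inl s)) → W} (hf : Y.Cl1 f)
    (c : ∀ i : Fin (Y.l s), ZMod (Y.M s i)) (hc : ∀ i, c i = 0) (p q : Y.P (.inr (.inl s))) :
    Y.pr (.inr (.inl s)) c f p = Y.pr (.inr (.inl s)) c f q := by
  obtain ⟨P, hP⟩ := exists_opt p
  obtain ⟨Q, hQ⟩ := exists_opt q
  have hPm : HYG.OnB (dat Y s) P := (onB_iff_KTwo P).2 ((mem_iff P).1 (hP ▸ p.2))
  have hQm : HYG.OnB (dat Y s) Q := (onB_iff_KTwo Q).2 ((mem_iff Q).1 (hQ ▸ q.2))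
  have e1 : fH (Y.pr (.inr (.inl s)) c f) P = Y.pr (.inr (.inl s)) c f p := fH_eq_KTwo _ hP
  have e2 : fH (Y.pr (.inr (.inl s)) c f) Q = Y.pr (.inr (.inl s)) c f q := fH_eq_KTwo _ hQ
  refine e1.symm.trans (Eq.trans ?_ e2)
  refine (eig_pr hf c).indep (pos_KTwo Y s) (b := (0 : Fin 1)) (fun i _ => ?_) hPm hQm
    fun i hi => absurd rfl hi
  have h1 : (c i).val = 0 := by rw [hc i, ZMod.val_zero]
  exact h1

theorem pr_zero₂ (hY : Y.Ok) {s : S₂} {f : Y.P (.inr (.inl s)) → W} (hf : Y.Cl1 f)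
    (c : ∀ i : Fin (Y.l s), ZMod (Y.M s i)) {i j : Fin (Y.l s)} (hi : c i ≠ 0) (hj : c j = 0)
    (p : Y.P (.inr (.inl s))) : Y.pr (.inr (.inl s)) c f p = 0 := by
  obtain ⟨P, hP⟩ := exists_opt p
  have hPm : HYG.OnB (dat Y s) P := (onB_iff_KTwo P).2 ((mem_iff P).1 (hP ▸ p.2))
  have e1 : fH (Y.pr (.inr (.inl s)) c f) P = Y.pr (.inr (.inl s)) c f p := fH_eq_KTwo _ hP
  refine e1.symm.trans ?_
  have hG : HYG.Gnl (dat Y s) := by
    intro b
    obtain ⟨i₀, h0⟩ := hY.row s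
    exact ⟨i₀, Subsingleton.elim (0 : Fin 1) b, fun j _ => h0 j⟩
  refine (eig_pr hf c).mixed (pos_KTwo Y s) hG (fun i => ZMod.val_lt _) (i := i) (j := j) rfl
    ?_ ?_ hPm
  · exact fun h => hi ((ZMod.val_eq_zero _).1 h)
  · exact (ZMod.val_eq_zero _).2 hj

omit [Fintype S₁] [Fintype S₂] [Fintype S₄] in
private theorem pr2_left_KTwo {s s' : S₂} (c : Y.K (.inr (.inl s))) (c' : Y.K (.inr (.inl s')))
    (f : Y.P (.inr (.inl s)) → Y.P (.inr (.inl s')) → W) (p : Y.P (.inr (.inl s)))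
    (q : Y.P (.inr (.inl s'))) :
    Y.pr2 (.inr (.inl s)) (.inr (.inl s')) c c' f p q = Y.pr (.inr (.inl s)) c
      (fun p => ∑ κ' : Y.K (.inr (.inl s')), Y.wt (.inr (.inl s')) c' κ' •
        f p (Y.av (.inr (.inl s')) κ' q)) p := by
  unfold Fly.pr2 Fly.pr
  simp only [Finset.smul_sum, mul_smul]

omit [Fintype S₁] [Fintype S₂] [Fintype S₄] in
private theorem pr2_right_KTwo {s s' : S₂} (c : Y.K (.inr (.inl s))) (c' : Y.K (.inr (.inl s')))
    (f : Y.P (.inr (.inl s)) → Y.P (.inr (.inl s')) → W) (p : Y.P (.inr (.inl s)))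
    (q : Y.P (.inr (.inl s'))) :
    Y.pr2 (.inr (.inl s)) (.inr (.inl s')) c c' f p q = Y.pr (.inr (.inl s')) c'
      (fun q => ∑ κ : Y.K (.inr (.inl s)), Y.wt (.inr (.inl s)) c κ •
        f (Y.av (.inr (.inl s)) κ p) q) q := by
  unfold Fly.pr2 Fly.pr
  rw [Finset.sum_comm]
  simp only [Finset.smul_sum, mul_smul]
  refine Finset.sum_congr rfl fun κ' _ => Finset.sum_congr rfl fun κ _ => ?_
  rw [smul_comm]

private theorem rot_eq_KTwo {n : ℕ} (i : Fin n) (u : ℂ) (P : Fin n → Option ℂ) :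
    HYG.rot i u P = HYG.rotA (Function.update (1 : Fin n → ℂ) i u) P := by
  funext j
  unfold HYG.rot HYG.rotA
  by_cases hj : j = i
  · subst hj
    rw [Function.update_self, Function.update_self]
  · rw [Function.update_of_ne hj, Function.update_of_ne hj, Pi.one_apply]
    simp

/-- the automorphism which multiplies the coordinate `i` by `u` -/
private theorem exists_root_KTwo {s : S₂} (i : Fin (Y.l s)) {u : ℂ} (hu : u ^ Y.M s i = 1) :
    ∃ h : ∀ j : Fin (Y.l s), rootsOfUnity (Y.M s j) ℂ,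
      (fun j => ((h j : ℂˣ) : ℂ)) = Function.update (1 : Fin (Y.l s) → ℂ) i u := by
  have hu0 : u ≠ 0 := by
    intro h
    rw [h, zero_pow (pos_KTwo Y s i).ne'] at hu
    exact zero_ne_one hu
  refine ⟨Function.update 1 i ⟨Units.mk0 u hu0, by
    rw [mem_rootsOfUnity]
    ext
    exact hu⟩, ?_⟩
  funext j
  by_cases hj : j = i
  · subst hj
    rw [Function.update_self, Function.update_self]
    rfl
  · rw [Function.update_of_ne hj, Function.update_of_ne hj]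
    rfl

private theorem prod_upd_KTwo {n : ℕ} (i : Fin n) (u : ℂ) (a : Fin n → ℕ) :
    (∏ j, (Function.update (1 : Fin n → ℂ) i u) j ^ a j) = u ^ a i := by
  rw [Fintype.prod_eq_single i]
  · rw [Function.update_self]
  · intro j hj
    rw [Function.update_of_ne hj, Pi.one_apply, one_pow]

private theorem chi_upd_KTwo {s : S₂} (c : ∀ i : Fin (Y.l s), ZMod (Y.M s i)) (i : Fin (Y.l s))
    (u : ℂ) (h : ∀ j : Fin (Y.l s), rootsOfUnity (Y.M s j) ℂ)
    (hh : (fun j => ((h j : ℂˣ) : ℂ)) = Function.update (1 : Fin (Y.l s) → ℂ) i u) :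
    Y.chi (.inr (.inl s)) c h = u ^ (c i).val := by
  rw [← prod_upd_KTwo i u fun i => (c i).val, ← hh]
  rfl

theorem pr_swap₂ (hS : HYG.SwapAll ℂ) (hY : Y.Ok) {s : S₂}
    {f : Y.P (.inr (.inl s)) → Y.P (.inr (.inl s)) → W} (hf : Y.Cl2 f)
    (c : ∀ i : Fin (Y.l s), ZMod (Y.M s i)) (hc : ∀ i, c i ≠ 0) (p q : Y.P (.inr (.inl s))) :
    Y.pr2 (.inr (.inl s)) (.inr (.inl s)) c c f p q =
      (-1 : ℂ) ^ Y.n (.inr (.inl s)) • Y.pr2 (.inr (.inl s)) (.inr (.inl s)) c c f q p := by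
  obtain ⟨P, hP⟩ := exists_opt p
  obtain ⟨Q, hQ⟩ := exists_opt q
  have hPm : HYG.OnY (Y.A s) (Y.M s) P := (mem_iff P).1 (hP ▸ p.2)
  have hQm : HYG.OnY (Y.A s) (Y.M s) Q := (mem_iff Q).1 (hQ ▸ q.2)
  set E : (Fin (Y.l s) → Option ℂ) → (Fin (Y.l s) → Option ℂ) → W := fun P Q =>
    fH (fun p => fH (fun q => Y.pr2 (.inr (.inl s)) (.inr (.inl s)) c c f p q) Q) P with hE
  have hEpq : E P Q = Y.pr2 (.inr (.inl s)) (.inr (.inl s)) c c f p q := by
    rw [hE]
    beta_reduce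
    rw [fH_eq_KTwo _ hP, fH_eq_KTwo _ hQ]
  have hEqp : E Q P = Y.pr2 (.inr (.inl s)) (.inr (.inl s)) c c f q p := by
    rw [hE]
    beta_reduce
    rw [fH_eq_KTwo _ hQ, fH_eq_KTwo _ hP]
  have hχ : HYG.Chars (Y.M s) (fun i (u : ℂ) => u ^ (c i).val) := by
    refine ⟨fun i u u' _ _ => mul_pow _ _ _, fun i => ?_, fun i => one_pow _⟩
    exact HYG.exists_nontriv (fun h => hc i ((ZMod.val_eq_zero _).1 h)) (ZMod.val_lt _)
  have hcls : HYG.IsCls (Y.A s) (Y.A s) (Y.M s) (fun i (u : ℂ) => u ^ (c i).val) E := by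
    refine ⟨?_, ?_, ?_⟩
    · intro K _ _ hK w w' g hg hw hw'
      have hm : ∀ v : Place ℂ K, (fun i => HYG.toP (HYG.vl v (w i)) :
          Y.Amb (.inr (.inl s))) ∈ Y.X (.inr (.inl s)) :=
        fun v => (mem_iff _).2 (HYG.onY_vl hK (pos_KTwo Y s) hw v)
      have hm' : ∀ v : Place ℂ K, (fun i => HYG.toP (HYG.vl v (w' i)) :
          Y.Amb (.inr (.inl s))) ∈ Y.X (.inr (.inl s)) :=
        fun v => (mem_iff _).2 (HYG.onY_vl hK (pos_KTwo Y s) hw' v)
      have hval : ∀ (κ : Y.K (.inr (.inl s))) (w : Fin (Y.l s) → K)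
          (hm : ∀ v : Place ℂ K, (fun i => HYG.toP (HYG.vl v (w i)) :
            Y.Amb (.inr (.inl s))) ∈ Y.X (.inr (.inl s))) (v : Place ℂ K) (e : Fin (Y.l s)),
          DCI57.IsValue v ![algebraMap ℂ K (((BBP.rt
            ((κ : ∀ i : Fin (Y.l s), ZMod (Y.M s i)) e) : rootsOfUnity (Y.M s e) ℂ) : ℂˣ) : ℂ) *
              w e, 1] ((Y.av (.inr (.inl s)) κ ⟨_, hm v⟩).1 e) := by
        intro κ w hm v e
        have h1 := HYG.isValue_toP hK v (algebraMap ℂ K (((BBP.rt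
            ((κ : ∀ i : Fin (Y.l s), ZMod (Y.M s i)) e) : rootsOfUnity (Y.M s e) ℂ) : ℂˣ) : ℂ) *
              w e)
        rw [HYG.vl_smul (Units.ne_zero _), ← mul_toP_KTwo] at h1
        exact h1
      have h1 : ∀ κ κ' : Y.K (.inr (.inl s)), ((dv hK g).sum fun v a => (a : ℂ) •
          f (Y.av (.inr (.inl s)) κ ⟨_, hm v⟩) (Y.av (.inr (.inl s)) κ' ⟨_, hm' v⟩)) = 0 :=
        fun κ κ' => hf.div hK _ _ _ _ (hval κ w hm) (hval κ' w' hm') hg
      have h2 : ∀ v, E (fun i => HYG.vl v (w i)) (fun i => HYG.vl v (w' i)) =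
          ∑ κ : Y.K (.inr (.inl s)), ∑ κ' : Y.K (.inr (.inl s)),
            (Y.wt (.inr (.inl s)) c κ * Y.wt (.inr (.inl s)) c κ') •
              f (Y.av (.inr (.inl s)) κ ⟨_, hm v⟩) (Y.av (.inr (.inl s)) κ' ⟨_, hm' v⟩) := by
        intro v
        rw [hE]
        beta_reduce
        rw [fH_eq_KTwo _ (p := ⟨_, hm v⟩) rfl, fH_eq_KTwo _ (p := ⟨_, hm' v⟩) rfl]
        rfl
      unfold Finsupp.sum at h1 ⊢
      simp only [h2, Finset.smul_sum]
      rw [Finset.sum_comm]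
      refine Finset.sum_eq_zero fun κ _ => ?_
      rw [Finset.sum_comm]
      refine Finset.sum_eq_zero fun κ' _ => ?_
      have h3 := congrArg ((Y.wt (.inr (.inl s)) c κ * Y.wt (.inr (.inl s)) c κ') • ·) (h1 κ κ')
      simp only [Finset.smul_sum, smul_zero] at h3
      rw [← h3]
      refine Finset.sum_congr rfl fun v _ => ?_
      rw [smul_comm, Int.cast_smul_eq_zsmul]
    · intro P Q i u hu
      obtain ⟨h, hh⟩ := exists_root_KTwo (Y := Y) i hu
      rw [rot_eq_KTwo, ← hh, hE]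
      beta_reduce
      rw [fH_act_KTwo, ← fH_smul_KTwo]
      congr 1
      funext p
      rw [← fH_smul_KTwo]
      congr 1
      funext q
      rw [pr2_left_KTwo, pr_act₂, ← pr2_left_KTwo, chi_upd_KTwo c i u h hh]
    · intro P Q i u hu
      obtain ⟨h, hh⟩ := exists_root_KTwo (Y := Y) i hu
      rw [rot_eq_KTwo, ← hh, hE]
      beta_reduce
      rw [← fH_smul_KTwo]
      congr 1
      funext p
      rw [fH_act_KTwo, ← fH_smul_KTwo]
      congr 1
      funext q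
      rw [pr2_right_KTwo, pr_act₂, ← pr2_right_KTwo, chi_upd_KTwo c i u h hh]
  have h1 := hS (Y.l s) (Y.A s) (Y.M s) _ W E (hY.row s) (pos_KTwo Y s) hχ hcls Q P hQm hPm
  rw [hEpq, hEqp] at h1
  rw [h1]
  congr 1
  have h2 : Y.n (.inr (.inl s)) = Y.l s - 1 := rfl
  have h3 : Y.l s + 1 = Y.l s - 1 + 2 := by
    have := hY.dim₂ s
    omega
  rw [h2, h3, pow_add]
  norm_num

end Pool.Agent.BBY
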